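import Pool.Agent.H67.HM.Stm2

/-! Crew HM2, part BIN (helper42): binomial sums. -/

set_option autoImplicit false

open Polynomial

namespace HM

/-- the finite binomial sums -/
lemma bin_sum (T : ℕ) : ∀ j : ℕ,
    ∑ t ∈ Finset.range T, (t.choose j : ℝ) * (1 / 4 : ℝ) ^ (t + 1) ≤ (1 / 3 : ℝ) ^ (j + 1) := by
  induction T with
  | zero =>
    intro j
    rw [Finset.range_zero, Finset.sum_empty]
    positivity
  | succ T ih =>
    intro j
    rw [Finset.sum_range_succ']
    cases j with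
    | zero =>
      have h0 := ih 0
      have e : ∑ k ∈ Finset.range T, ((k + 1).choose 0 : ℝ) * (1 / 4 : ℝ) ^ (k + 1 + 1) =
          1 / 4 * ∑ t ∈ Finset.range T, (t.choose 0 : ℝ) * (1 / 4 : ℝ) ^ (t + 1) := by
        rw [Finset.mul_sum]
        refine Finset.sum_congr rfl fun k _ => ?_
        simp only [Nat.choose_zero_right, Nat.cast_one]
        ring
      rw [e]
      simp only [Nat.choose_zero_right, Nat.cast_one, zero_add, pow_one] at h0 ⊢
      linarith
    | succ j =>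
      have h0 := ih j
      have h1 := ih (j + 1)
      have e : ∑ k ∈ Finset.range T, ((k + 1).choose (j + 1) : ℝ) * (1 / 4 : ℝ) ^ (k + 1 + 1) =
          1 / 4 * (∑ t ∈ Finset.range T, (t.choose j : ℝ) * (1 / 4 : ℝ) ^ (t + 1) +
            ∑ t ∈ Finset.range T, (t.choose (j + 1) : ℝ) * (1 / 4 : ℝ) ^ (t + 1)) := by
        rw [← Finset.sum_add_distrib, Finset.mul_sum]
        refine Finset.sum_congr rfl fun k _ => ?_
        rw [Nat.choose_succ_succ]
        push_cast
        ring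
      rw [e]
      have e2 : (1 / 3 : ℝ) ^ (j + 1 + 1) = 1 / 4 * ((1 / 3 : ℝ) ^ (j + 1) + (1 / 3 : ℝ) ^ (j + 1 + 1)) := by
        ring
      have e3 : ((0 : ℕ).choose (j + 1) : ℝ) = 0 := by simp
      rw [e3, zero_mul, add_zero, e2]
      linarith

lemma TT_pow (k : ℤ) (n : ℕ) : TT k ^ n = TT (n * k) := by
  unfold TT
  rw [AddMonoidAlgebra.single_pow]
  simp

theorem BIN_proved (hN : S_NRM) : S_BIN := by
  intro s D x z t₀ hs
  have h1 : ∀ t : ℕ, Nn s (((-1 / 4 : ℂ) ^ t / 4) • (TT (-D) ^ (t + 1) * (1 + x) ^ t * z)) ≤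
      (1 / 4 : ℝ) ^ (t + 1) * ∑ j ∈ Finset.range (t + 1), (t.choose j : ℝ) * Nn s (x ^ j * z) := by
    intro t
    rw [hN.smul s _ _ hs]
    have e1 : ‖((-1 / 4 : ℂ) ^ t / 4)‖ = (1 / 4 : ℝ) ^ (t + 1) := by
      rw [norm_div, norm_pow]
      norm_num
      ring
    rw [e1]
    apply mul_le_mul_of_nonneg_left _ (by positivity)
    rw [mul_assoc, TT_pow]
    unfold TT
    rw [hN.single_mul s _ _ hs]
    have e2 : (1 + x) ^ t * z = ∑ j ∈ Finset.range (t + 1), ((t.choose j : ℕ) : ℂ) • (x ^ j * z) := by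
      rw [add_comm, add_pow, Finset.sum_mul]
      refine Finset.sum_congr rfl fun j _ => ?_
      rw [one_pow, mul_one, Nat.cast_smul_eq_nsmul, nsmul_eq_mul]
      ring
    rw [e2]
    refine (hN.sum s _ _ hs).trans (le_of_eq ?_)
    refine Finset.sum_congr rfl fun j _ => ?_
    rw [hN.smul s _ _ hs]
    simp
  refine (hN.sum s _ _ hs).trans ?_
  refine (Finset.sum_le_sum fun t _ => h1 t).trans ?_
  have h2 : ∀ t ∈ Finset.range t₀, (1 / 4 : ℝ) ^ (t + 1) * ∑ j ∈ Finset.range (t + 1),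
      (t.choose j : ℝ) * Nn s (x ^ j * z) =
      ∑ j ∈ Finset.range t₀, (t.choose j : ℝ) * (1 / 4 : ℝ) ^ (t + 1) * Nn s (x ^ j * z) := by
    intro t ht
    rw [Finset.mem_range] at ht
    rw [Finset.mul_sum]
    have hsub : Finset.range (t + 1) ⊆ Finset.range t₀ := Finset.range_subset_range.2 ht
    rw [← Finset.sum_subset hsub]
    · refine Finset.sum_congr rfl fun j _ => ?_
      ring
    · intro j _ hj
      rw [Finset.mem_range, not_lt] at hj
      rw [Nat.choose_eq_zero_of_lt (by omega)]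
      simp
  rw [Finset.sum_congr rfl h2, Finset.sum_comm]
  refine Finset.sum_le_sum fun j _ => ?_
  rw [← Finset.sum_mul]
  exact mul_le_mul_of_nonneg_right (bin_sum t₀ j) (hN.nonneg s _)

end HM
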