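import Pool.Agent.H67.HM.Stm2
import Pool.Agent.H87.HM.TOEP

/-! Crew HM2, part MUL (helper42): multiplication by a polynomial in `ℓ²`. -/

set_option autoImplicit false

open Polynomial

namespace HM

/-- sums over a larger finite set -/
lemma mul_sum_sub (x : RR) (S : Finset ℤ) (hS : x.coeff.support ⊆ S) :
    ∑ k ∈ x.coeff.support, ‖x.coeff k‖ ^ (2 : ℝ) = ∑ k ∈ S, ‖x.coeff k‖ ^ (2 : ℝ) := by
  refine Finset.sum_subset hS fun k _ hk => ?_
  rw [Finsupp.notMem_support_iff] at hk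
  rw [hk]
  simp

lemma mul_Nn_tl (f : ℂ[X]) : Nn 2 (tl f) = (N2 f) ^ (1 / (2 : ℝ)) := by
  unfold Nn N2
  congr 1
  have h1 : (tl f).coeff.support = f.support.map Nat.castEmbedding :=
    LaurentPolynomial.support_coeff_toLaurent f
  rw [h1, Finset.sum_map]
  refine Finset.sum_congr rfl fun k _ => ?_
  have h2 : (tl f).coeff (Nat.castEmbedding k) = f.coeff k := by
    show (Polynomial.toLaurent f).coeff (k : ℤ) = f.coeff k
    rw [Polynomial.toLaurent_apply, AddMonoidAlgebra.coeff_mapDomain]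
    exact Finsupp.mapDomain_apply Nat.cast_injective _ _
  rw [h2, Real.rpow_two]

lemma mul_Nn_shift (n : ℤ) (x : RR) :
    Nn 2 (x * AddMonoidAlgebra.single n 1) = Nn 2 x := by
  unfold Nn
  congr 1
  have hc : ∀ k : ℤ, (x * AddMonoidAlgebra.single n (1 : ℂ)).coeff (k + n) = x.coeff k := by
    intro k
    rw [mul_comm, add_comm k n, AddMonoidAlgebra.coeff_single_mul_add, one_mul]
  have hsub : (x * AddMonoidAlgebra.single n (1 : ℂ)).coeff.support ⊆
      x.coeff.support.map (addRightEmbedding n) := by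
    intro k hk
    rw [Finset.mem_map]
    refine ⟨k - n, ?_, by simp⟩
    rw [Finsupp.mem_support_iff] at hk ⊢
    rw [← hc (k - n), sub_add_cancel]
    exact hk
  rw [mul_sum_sub _ _ hsub, Finset.sum_map]
  refine Finset.sum_congr rfl fun k _ => ?_
  show ‖(x * AddMonoidAlgebra.single n (1 : ℂ)).coeff (k + n)‖ ^ (2 : ℝ) = _
  rw [hc]

theorem MUL_proved : S_MUL := by
  intro b s hs hb x
  obtain ⟨n, f, hf⟩ := LaurentPolynomial.exists_T_pow x
  have hf' : tl f = x * AddMonoidAlgebra.single (n : ℤ) 1 := hf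
  have h1 : tl b * x * AddMonoidAlgebra.single (n : ℤ) 1 = tl (b * f) := by
    rw [map_mul, hf', mul_assoc]
  rw [← mul_Nn_shift n (tl b * x), ← mul_Nn_shift n x, h1, ← hf', mul_Nn_tl, mul_Nn_tl]
  have h2 := N2_mul_le b f s hs hb
  calc N2 (b * f) ^ (1 / (2 : ℝ)) ≤ (s ^ 2 * N2 f) ^ (1 / (2 : ℝ)) :=
        Real.rpow_le_rpow (N2_nonneg _) h2 (by norm_num)
    _ = s * N2 f ^ (1 / (2 : ℝ)) := by
        rw [Real.mul_rpow (by positivity) (N2_nonneg _), ← Real.rpow_natCast, ← Real.rpow_mul hs]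
        norm_num

end HM
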